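import Pool.Agent.helper67.TSC.Spec

set_option autoImplicit false

open Finset

noncomputable section

namespace Pool.Agent.TSC

open Pool.Agent.EP

theorem FIN_root (x : ℝ) (hx : 0 ≤ x) : ∃ t : ℝ, 0 ≤ t ∧ t ^ 4 = x ∧ x ^ (3 / 4 : ℝ) = t ^ 3 ∧ √x = t ^ 2 := by
  refine ⟨x ^ (1 / 4 : ℝ), Real.rpow_nonneg hx _, ?_, ?_, ?_⟩
  · rw [← Real.rpow_natCast, ← Real.rpow_mul hx]
    norm_num
  · rw [← Real.rpow_natCast, ← Real.rpow_mul hx]
    norm_num
  · rw [← Real.rpow_natCast, ← Real.rpow_mul hx, Real.sqrt_eq_rpow]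
    norm_num

/-- the main case -/
theorem FIN_core (C₁ : ℕ) (L : ℝ) (hL : 1024 ≤ L) (X Z F E : ℕ) (hZ : 0 < Z)
    (hM : ∀ b h K N : ℕ, L ^ C₁ ≤ (2 : ℝ) ^ b → L ^ 2 ≤ (2 : ℝ) ^ h → (2 : ℝ) ^ h ≤ L ^ 3 →
      4 ^ h * 2 ^ b ≤ K → (K : ℝ) * (4 ^ h * 2 ^ b) * L ^ C₁ ≤ N →
      2 * K * N * (4 ^ h * 2 ^ b) ≤ X → 2 * K * N ≤ Z * 2 ^ b →
      (K : ℝ) * N ≤ L ^ C₁ * (√N * F) ∨ (K : ℝ) * N ≤ L ^ C₁ * (√((K : ℝ) / 2 ^ b) * E))
    (h1 : (X : ℝ) * L ^ (2 * (C₁ + 5)) < (Z : ℝ) ^ 2) (h4 : (Z : ℝ) * L ^ (2 * C₁ + 5) < X)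
    (h2 : (F : ℝ) ^ 4 * L ^ (4 * (2 * C₁ + 4)) < X * (Z : ℝ) ^ 2) :
    (X : ℝ) * √Z ≤ L ^ (2 * C₁ + 11) * (E * max (F : ℝ) (√X)) := by
  have hL0 : 0 < L := by linarith
  have hL1 : 1 ≤ L := by linarith
  have hZ0 : (0 : ℝ) < Z := by exact_mod_cast hZ
  have hX0 : (0 : ℝ) < X := lt_trans (by positivity) h4
  -- `h`
  obtain ⟨m, hm1, hm2⟩ := exists_nat_pow_near (x := L ^ 2) (y := (2 : ℝ)) (one_le_pow₀ hL1) (by norm_num)
  set h := m + 1 with hh
  have hη1 : L ^ 2 ≤ (2 : ℝ) ^ h := hm2.le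
  have hη2 : (2 : ℝ) ^ h ≤ 2 * L ^ 2 := by
    rw [hh, pow_succ]
    linarith
  set η : ℝ := (2 : ℝ) ^ h with hη
  have hη0 : 0 < η := by positivity
  have hH : (4 : ℝ) ^ h = η ^ 2 := by
    rw [hη, ← pow_mul, mul_comm, pow_mul]
    norm_num
  have hHle : η ^ 2 ≤ 4 * L ^ 4 := by
    calc η ^ 2 ≤ (2 * L ^ 2) ^ 2 := pow_le_pow_left₀ hη0.le hη2 2
      _ = 4 * L ^ 4 := by ring
  have hHge : 1 ≤ η ^ 2 := by
    have : (1 : ℝ) ≤ η := le_trans (one_le_pow₀ hL1) hη1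
    exact one_le_pow₀ this
  -- `b`
  have hx1 : 1 ≤ (X : ℝ) / (Z * η ^ 2) := by
    rw [le_div_iff₀ (by positivity), one_mul]
    calc (Z : ℝ) * η ^ 2 ≤ Z * (4 * L ^ 4) := mul_le_mul_of_nonneg_left hHle hZ0.le
      _ ≤ Z * (L * L ^ 4) := by
          refine mul_le_mul_of_nonneg_left (mul_le_mul_of_nonneg_right (by linarith) (by positivity)) hZ0.le
      _ = Z * L ^ 5 := by ring
      _ ≤ Z * L ^ (2 * C₁ + 5) := by
          refine mul_le_mul_of_nonneg_left (pow_le_pow_right₀ hL1 (by omega)) hZ0.le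
      _ ≤ X := h4.le
  obtain ⟨b, hb1, hb2⟩ := exists_nat_pow_near hx1 (by norm_num : (1 : ℝ) < 4)
  set A : ℝ := (2 : ℝ) ^ b with hA
  have hA0 : 0 < A := by positivity
  have hA1 : 1 ≤ A := one_le_pow₀ (by norm_num)
  have h4b : (4 : ℝ) ^ b = A ^ 2 := by
    rw [hA, ← pow_mul, mul_comm, pow_mul]
    norm_num
  have hXlow : A ^ 2 * η ^ 2 * Z ≤ X := by
    rw [h4b, le_div_iff₀ (by positivity)] at hb1
    have h3 : A ^ 2 * η ^ 2 * (Z : ℝ) = A ^ 2 * ((Z : ℝ) * η ^ 2) := by ring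
    rw [h3]
    exact hb1
  have hXup : (X : ℝ) < 4 * A ^ 2 * η ^ 2 * Z := by
    rw [pow_succ (4 : ℝ) b, h4b, div_lt_iff₀ (by positivity)] at hb2
    calc (X : ℝ) < A ^ 2 * 4 * (Z * η ^ 2) := hb2
      _ = _ := by ring
  have hALC : L ^ C₁ ≤ A := by
    have h3 : (L ^ C₁) ^ 2 ≤ A ^ 2 := by
      by_contra hcon
      push Not at hcon
      have h5 : (X : ℝ) < X := by
        calc (X : ℝ) < 4 * A ^ 2 * η ^ 2 * Z := hXup
          _ ≤ 4 * (L ^ C₁) ^ 2 * (4 * L ^ 4) * Z := by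
              refine mul_le_mul_of_nonneg_right ?_ hZ0.le
              exact mul_le_mul (by linarith) hHle (by positivity) (by positivity)
          _ = 16 * (Z * L ^ (2 * C₁ + 4)) := by ring
          _ ≤ L * (Z * L ^ (2 * C₁ + 4)) := by
              refine mul_le_mul_of_nonneg_right (by linarith) (by positivity)
          _ = Z * L ^ (2 * C₁ + 5) := by ring
          _ < X := h4
      exact lt_irrefl _ h5
    exact (pow_le_pow_iff_left₀ (by positivity) hA0.le (by norm_num)).1 h3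
  -- `K`
  set G : ℝ := (F : ℝ) ^ 2 * L ^ (2 * C₁ + 2) / (Z * A) with hG
  have hG0 : 0 ≤ G := by positivity
  set K : ℕ := max (4 ^ h * 2 ^ b) ⌈G⌉₊ with hK
  have hKG : G ≤ K := by
    refine (Nat.le_ceil G).trans ?_
    exact_mod_cast le_max_right _ _
  have hKnat : 4 ^ h * 2 ^ b ≤ K := le_max_left _ _
  have hcast : ((4 ^ h * 2 ^ b : ℕ) : ℝ) = η ^ 2 * A := by
    push_cast
    rw [hH]
  have hKHA : η ^ 2 * A ≤ K := by
    rw [← hcast]
    exact_mod_cast hKnat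
  have hK1 : (1 : ℝ) ≤ K := le_trans (by nlinarith [one_le_mul_of_one_le_of_one_le hHge hA1]) hKHA
  have hK0 : (0 : ℝ) < K := by linarith
  have hdich : (K : ℝ) = η ^ 2 * A ∨ (K : ℝ) ≤ 2 * G := by
    rcases le_or_gt ⌈G⌉₊ (4 ^ h * 2 ^ b) with h3 | h3
    · left
      rw [← hcast, hK, max_eq_left h3]
    · right
      rw [hK, max_eq_right h3.le]
      have h5 : 1 < ⌈G⌉₊ := lt_of_le_of_lt (Nat.one_le_iff_ne_zero.2 (by positivity)) h3
      have h6 : 1 < G := by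
        have := Nat.lt_ceil.1 h5
        simpa using this
      have h7 := Nat.ceil_lt_add_one hG0
      linarith
  have hkey : 4 * (K : ℝ) ^ 2 * η ^ 2 * L ^ C₁ ≤ Z := by
    rcases hdich with h3 | h3
    · rw [h3]
      have h5 : 4 * (η ^ 2 * A) ^ 2 * η ^ 2 * L ^ C₁ * Z ≤ Z * Z := by
        calc 4 * (η ^ 2 * A) ^ 2 * η ^ 2 * L ^ C₁ * Z
            = 4 * (η ^ 2) ^ 2 * L ^ C₁ * (A ^ 2 * η ^ 2 * Z) := by ring
          _ ≤ 4 * (4 * L ^ 4) ^ 2 * L ^ C₁ * X := by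
              refine mul_le_mul ?_ hXlow (by positivity) (by positivity)
              refine mul_le_mul_of_nonneg_right ?_ (by positivity)
              refine mul_le_mul_of_nonneg_left ?_ (by norm_num)
              exact pow_le_pow_left₀ (by positivity) hHle 2
          _ = 64 * (L ^ (C₁ + 8) * X) := by ring
          _ ≤ L * (L ^ (C₁ + 8) * X) := mul_le_mul_of_nonneg_right (by linarith) (by positivity)
          _ = L ^ (C₁ + 9) * X := by ring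
          _ ≤ L ^ (2 * (C₁ + 5)) * X :=
              mul_le_mul_of_nonneg_right (pow_le_pow_right₀ hL1 (by omega)) hX0.le
          _ ≤ Z * Z := by nlinarith [h1]
      exact le_of_mul_le_mul_right h5 hZ0
    · have h5 : (K : ℝ) ^ 2 * (Z ^ 2 * A ^ 2) ≤ 4 * ((F : ℝ) ^ 4 * L ^ (4 * C₁ + 4)) := by
        have h6 : (K : ℝ) * (Z * A) ≤ 2 * ((F : ℝ) ^ 2 * L ^ (2 * C₁ + 2)) := by
          have h7 : G * (Z * A) = (F : ℝ) ^ 2 * L ^ (2 * C₁ + 2) := by
            rw [hG]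
            field_simp
          calc (K : ℝ) * (Z * A) ≤ 2 * G * (Z * A) := mul_le_mul_of_nonneg_right h3 (by positivity)
            _ = 2 * ((F : ℝ) ^ 2 * L ^ (2 * C₁ + 2)) := by rw [← h7]; ring
        calc (K : ℝ) ^ 2 * (Z ^ 2 * A ^ 2) = ((K : ℝ) * (Z * A)) ^ 2 := by ring
          _ ≤ (2 * ((F : ℝ) ^ 2 * L ^ (2 * C₁ + 2))) ^ 2 := pow_le_pow_left₀ (by positivity) h6 2
          _ = _ := by ring
      -- multiply by powers of L
      have h8 : 4 * (K : ℝ) ^ 2 * η ^ 2 * L ^ C₁ * (Z ^ 2 * A ^ 2 * L ^ (4 * (2 * C₁ + 4))) ≤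
          Z * (Z ^ 2 * A ^ 2 * L ^ (4 * (2 * C₁ + 4))) := by
        calc 4 * (K : ℝ) ^ 2 * η ^ 2 * L ^ C₁ * (Z ^ 2 * A ^ 2 * L ^ (4 * (2 * C₁ + 4)))
            = 4 * η ^ 2 * L ^ C₁ * L ^ (4 * (2 * C₁ + 4)) * ((K : ℝ) ^ 2 * (Z ^ 2 * A ^ 2)) := by ring
          _ ≤ 4 * η ^ 2 * L ^ C₁ * L ^ (4 * (2 * C₁ + 4)) * (4 * ((F : ℝ) ^ 4 * L ^ (4 * C₁ + 4))) :=
              mul_le_mul_of_nonneg_left h5 (by positivity)
          _ = 16 * η ^ 2 * L ^ (5 * C₁ + 4) * ((F : ℝ) ^ 4 * L ^ (4 * (2 * C₁ + 4))) := by ring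
          _ ≤ 16 * η ^ 2 * L ^ (5 * C₁ + 4) * (X * (Z : ℝ) ^ 2) :=
              mul_le_mul_of_nonneg_left h2.le (by positivity)
          _ ≤ 16 * η ^ 2 * L ^ (5 * C₁ + 4) * ((4 * A ^ 2 * η ^ 2 * Z) * (Z : ℝ) ^ 2) := by
              refine mul_le_mul_of_nonneg_left ?_ (by positivity)
              exact mul_le_mul_of_nonneg_right hXup.le (by positivity)
          _ = 64 * (η ^ 2) ^ 2 * (L ^ (5 * C₁ + 4) * (A ^ 2 * Z * Z ^ 2)) := by ring
          _ ≤ 64 * (4 * L ^ 4) ^ 2 * (L ^ (5 * C₁ + 4) * (A ^ 2 * Z * Z ^ 2)) := by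
              refine mul_le_mul_of_nonneg_right ?_ (by positivity)
              refine mul_le_mul_of_nonneg_left ?_ (by norm_num)
              exact pow_le_pow_left₀ (by positivity) hHle 2
          _ = 1024 * (L ^ (5 * C₁ + 12) * (A ^ 2 * Z * Z ^ 2)) := by ring
          _ ≤ L * (L ^ (5 * C₁ + 12) * (A ^ 2 * Z * Z ^ 2)) :=
              mul_le_mul_of_nonneg_right hL (by positivity)
          _ = L ^ (5 * C₁ + 13) * (A ^ 2 * Z * Z ^ 2) := by ring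
          _ ≤ L ^ (4 * (2 * C₁ + 4)) * (A ^ 2 * Z * Z ^ 2) :=
              mul_le_mul_of_nonneg_right (pow_le_pow_right₀ hL1 (by omega)) (by positivity)
          _ = _ := by ring
      exact le_of_mul_le_mul_right h8 (by positivity)
  -- `N`
  set T : ℝ := Z * A / (2 * K) with hT
  have hT0 : 0 ≤ T := by positivity
  have hTK : T * (2 * K) = Z * A := by
    rw [hT]
    field_simp
  have hTge : 2 * ((K : ℝ) * (η ^ 2 * A) * L ^ C₁) ≤ T := by
    rw [hT, le_div_iff₀ (by positivity)]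
    calc 2 * ((K : ℝ) * (η ^ 2 * A) * L ^ C₁) * (2 * K) = (4 * (K : ℝ) ^ 2 * η ^ 2 * L ^ C₁) * A := by ring
      _ ≤ Z * A := mul_le_mul_of_nonneg_right hkey hA0.le
  have hbase : 1 ≤ (K : ℝ) * (η ^ 2 * A) * L ^ C₁ := by
    have e1 : 1 ≤ η ^ 2 * A := one_le_mul_of_one_le_of_one_le hHge hA1
    have e2 : 1 ≤ L ^ C₁ := one_le_pow₀ hL1
    exact one_le_mul_of_one_le_of_one_le (one_le_mul_of_one_le_of_one_le hK1 e1) e2
  set N : ℕ := ⌊T⌋₊ with hN
  have hNle : (N : ℝ) ≤ T := Nat.floor_le hT0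
  have hNge : T / 2 ≤ N := by
    have := Nat.lt_floor_add_one T
    have h3 : 2 ≤ T := by linarith
    have h5 : T < (N : ℝ) + 1 := this
    linarith
  have hKN1 : (K : ℝ) * N ≥ Z * A / 4 := by
    have : (K : ℝ) * (T / 2) ≤ K * N := mul_le_mul_of_nonneg_left hNge hK0.le
    have h3 : (K : ℝ) * (T / 2) = Z * A / 4 := by
      rw [← hTK]
      ring
    linarith
  have hKN2 : 2 * (K : ℝ) * N ≤ Z * A := by
    rw [← hTK]
    nlinarith [mul_le_mul_of_nonneg_left hNle hK0.le]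
  have hN1 : (1 : ℝ) ≤ N := by linarith
  -- the conditions
  have hcond1 : (K : ℝ) * (4 ^ h * 2 ^ b) * L ^ C₁ ≤ N := by
    rw [hH, ← hA]
    linarith
  have hcond2 : 2 * K * N * (4 ^ h * 2 ^ b) ≤ X := by
    have h3 : ((2 * K * N * (4 ^ h * 2 ^ b) : ℕ) : ℝ) ≤ X := by
      rw [Nat.cast_mul, hcast]
      push_cast
      calc 2 * (K : ℝ) * N * (η ^ 2 * A) ≤ Z * A * (η ^ 2 * A) :=
            mul_le_mul_of_nonneg_right hKN2 (by positivity)
        _ = A ^ 2 * η ^ 2 * Z := by ring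
        _ ≤ X := hXlow
    exact_mod_cast h3
  have hcond3 : 2 * K * N ≤ Z * 2 ^ b := by
    have h3 : ((2 * K * N : ℕ) : ℝ) ≤ ((Z * 2 ^ b : ℕ) : ℝ) := by
      push_cast
      rw [← hA]
      exact hKN2
    exact_mod_cast h3
  have hη3 : η ≤ L ^ 3 := by
    refine hη2.trans ?_
    nlinarith [pow_pos hL0 2]
  rcases hM b h K N hALC hη1 hη3 hKnat hcond1 hcond2 hcond3 with halt | halt
  · -- first alternative: impossible
    exfalso
    have hN0 : (0 : ℝ) < N := by linarith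
    have h3 : ((K : ℝ) * N) ^ 2 ≤ (L ^ C₁ * (√N * F)) ^ 2 := pow_le_pow_left₀ (by positivity) halt 2
    have h5 : (L ^ C₁ * (√(N : ℝ) * F)) ^ 2 = L ^ (2 * C₁) * (F : ℝ) ^ 2 * N := by
      rw [mul_pow, mul_pow, Real.sq_sqrt hN0.le, ← pow_mul]
      ring
    rw [h5] at h3
    have h6 : (K : ℝ) ^ 2 * N ≤ L ^ (2 * C₁) * (F : ℝ) ^ 2 := by
      have h7 : (K : ℝ) ^ 2 * N * N ≤ L ^ (2 * C₁) * (F : ℝ) ^ 2 * N := by
        calc (K : ℝ) ^ 2 * N * N = ((K : ℝ) * N) ^ 2 := by ring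
          _ ≤ _ := h3
      exact le_of_mul_le_mul_right h7 hN0
    have h7 : (F : ℝ) ^ 2 * L ^ (2 * C₁ + 2) / 4 ≤ (K : ℝ) ^ 2 * N := by
      have h8 : G * (Z * A) = (F : ℝ) ^ 2 * L ^ (2 * C₁ + 2) := by
        rw [hG]
        field_simp
      calc (F : ℝ) ^ 2 * L ^ (2 * C₁ + 2) / 4 = G * (Z * A / 4) := by rw [← h8]; ring
        _ ≤ K * (Z * A / 4) := mul_le_mul_of_nonneg_right hKG (by positivity)
        _ ≤ K * (K * N) := mul_le_mul_of_nonneg_left hKN1 hK0.le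
        _ = (K : ℝ) ^ 2 * N := by ring
    have h8 : (0 : ℝ) < (K : ℝ) ^ 2 * N := by positivity
    have h9 : (0 : ℝ) < L ^ (2 * C₁) * (F : ℝ) ^ 2 := lt_of_lt_of_le h8 h6
    have h10 : (L ^ (2 * C₁) * (F : ℝ) ^ 2) * (L ^ 2 / 4) ≤ (L ^ (2 * C₁) * (F : ℝ) ^ 2) * 1 := by
      calc (L ^ (2 * C₁) * (F : ℝ) ^ 2) * (L ^ 2 / 4) = (F : ℝ) ^ 2 * L ^ (2 * C₁ + 2) / 4 := by ring
        _ ≤ _ := by linarith
    have h11 := le_of_mul_le_mul_left h10 h9
    nlinarith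
  · have hZs : √(Z : ℝ) * √(Z : ℝ) = Z := Real.mul_self_sqrt hZ0.le
    have hZs0 : 0 < √(Z : ℝ) := Real.sqrt_pos.2 hZ0
    have hE0 : (0 : ℝ) ≤ E := Nat.cast_nonneg E
    have hF0 : (0 : ℝ) ≤ F := Nat.cast_nonneg F
    have hmain : Z * A / 4 ≤ L ^ C₁ * (√((K : ℝ) / A) * E) := hKN1.trans halt
    rcases hdich with h3 | h3
    · have h5 : √((K : ℝ) / A) = η := by
        rw [h3, mul_div_assoc, div_self hA0.ne', mul_one, Real.sqrt_sq hη0.le]
      rw [h5] at hmain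
      have h6 : √(X : ℝ) * √(Z : ℝ) ≤ 2 * A * η * Z := by
        rw [← Real.sqrt_mul hX0.le]
        refine Real.sqrt_le_iff.2 ⟨by positivity, ?_⟩
        calc (X : ℝ) * Z ≤ 4 * A ^ 2 * η ^ 2 * Z * Z := mul_le_mul_of_nonneg_right hXup.le hZ0.le
          _ = _ := by ring
      have h7 : √(X : ℝ) * √(Z : ℝ) ≤ L ^ (2 * C₁ + 11) * E := by
        calc √(X : ℝ) * √(Z : ℝ) ≤ 2 * A * η * Z := h6
          _ = 8 * η * (Z * A / 4) := by ring
          _ ≤ 8 * η * (L ^ C₁ * (η * E)) := mul_le_mul_of_nonneg_left hmain (by positivity)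
          _ = 8 * η ^ 2 * (L ^ C₁ * E) := by ring
          _ ≤ 8 * (4 * L ^ 4) * (L ^ C₁ * E) := by
              refine mul_le_mul_of_nonneg_right ?_ (by positivity)
              linarith
          _ = 32 * (L ^ (C₁ + 4) * E) := by ring
          _ ≤ L * (L ^ (C₁ + 4) * E) := mul_le_mul_of_nonneg_right (by linarith) (by positivity)
          _ = L ^ (C₁ + 5) * E := by ring
          _ ≤ L ^ (2 * C₁ + 11) * E :=
              mul_le_mul_of_nonneg_right (pow_le_pow_right₀ hL1 (by omega)) hE0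
      calc (X : ℝ) * √Z = √X * (√X * √Z) := by
            rw [← mul_assoc, Real.mul_self_sqrt hX0.le]
        _ ≤ √X * (L ^ (2 * C₁ + 11) * E) := mul_le_mul_of_nonneg_left h7 (Real.sqrt_nonneg _)
        _ = L ^ (2 * C₁ + 11) * (E * √X) := by ring
        _ ≤ _ := by
            refine mul_le_mul_of_nonneg_left ?_ (by positivity)
            exact mul_le_mul_of_nonneg_left (le_max_right _ _) hE0
    · have h5 : √((K : ℝ) / A) ≤ 2 * F * L ^ (C₁ + 1) / (√Z * A) := by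
        refine Real.sqrt_le_iff.2 ⟨by positivity, ?_⟩
        have h6 : (2 * F * L ^ (C₁ + 1) / (√(Z : ℝ) * A)) ^ 2 =
            4 * ((F : ℝ) ^ 2 * L ^ (2 * C₁ + 2)) / (Z * A ^ 2) := by
          rw [div_pow, mul_pow, mul_pow, mul_pow, Real.sq_sqrt hZ0.le, ← pow_mul]
          ring
        rw [h6, div_le_div_iff₀ hA0 (by positivity)]
        have h7 : G * (Z * A) = (F : ℝ) ^ 2 * L ^ (2 * C₁ + 2) := by
          rw [hG]
          field_simp
        rw [← h7]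
        calc (K : ℝ) * (Z * A ^ 2) ≤ 2 * G * (Z * A ^ 2) :=
              mul_le_mul_of_nonneg_right h3 (by positivity)
          _ ≤ 4 * (G * (Z * A)) * A := by nlinarith [mul_nonneg hG0 (by positivity : (0:ℝ) ≤ Z * A ^ 2)]
      have h6 : Z * A / 4 ≤ L ^ C₁ * ((2 * F * L ^ (C₁ + 1) / (√Z * A)) * E) := by
        refine hmain.trans ?_
        refine mul_le_mul_of_nonneg_left ?_ (by positivity)
        exact mul_le_mul_of_nonneg_right h5 hE0
      have h7 : Z * √(Z : ℝ) * A ^ 2 ≤ 8 * L ^ (2 * C₁ + 1) * (F * E) := by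
        have h8 : L ^ C₁ * ((2 * F * L ^ (C₁ + 1) / (√(Z : ℝ) * A)) * E) * (√Z * A) =
            2 * L ^ (2 * C₁ + 1) * (F * E) := by
          field_simp
          ring
        have h9 := mul_le_mul_of_nonneg_right h6 (by positivity : (0 : ℝ) ≤ √(Z : ℝ) * A)
        rw [h8] at h9
        nlinarith
      calc (X : ℝ) * √Z ≤ 4 * A ^ 2 * η ^ 2 * Z * √Z :=
            mul_le_mul_of_nonneg_right hXup.le (Real.sqrt_nonneg _)
        _ = 4 * η ^ 2 * (Z * √Z * A ^ 2) := by ring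
        _ ≤ 4 * η ^ 2 * (8 * L ^ (2 * C₁ + 1) * (F * E)) :=
            mul_le_mul_of_nonneg_left h7 (by positivity)
        _ ≤ 4 * (4 * L ^ 4) * (8 * L ^ (2 * C₁ + 1) * (F * E)) := by
            refine mul_le_mul_of_nonneg_right ?_ (by positivity)
            linarith
        _ = 128 * (L ^ (2 * C₁ + 5) * (F * E)) := by ring
        _ ≤ L * (L ^ (2 * C₁ + 5) * (F * E)) := mul_le_mul_of_nonneg_right (by linarith) (by positivity)
        _ = L ^ (2 * C₁ + 6) * (F * E) := by ring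
        _ ≤ L ^ (2 * C₁ + 11) * (F * E) :=
            mul_le_mul_of_nonneg_right (pow_le_pow_right₀ hL1 (by omega)) (by positivity)
        _ = L ^ (2 * C₁ + 11) * (E * F) := by ring
        _ ≤ _ := by
            refine mul_le_mul_of_nonneg_left ?_ (by positivity)
            exact mul_le_mul_of_nonneg_left (le_max_left _ _) hE0

theorem FIN_large (X₂ : ℕ) (c : ℕ) : ∃ X₀ : ℕ, ∀ X : ℕ, X₀ ≤ X →
    1024 ≤ Real.log X ∧ (X₂ : ℝ) * Real.log X ^ c < X := by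
  have h1 : Filter.Tendsto (fun X : ℕ => Real.log (X : ℝ)) Filter.atTop Filter.atTop :=
    Real.tendsto_log_atTop.comp tendsto_natCast_atTop_atTop
  have h2 := h1.eventually_ge_atTop 1024
  have h3 : (fun x : ℝ => Real.log x ^ c) =o[Filter.atTop] (id : ℝ → ℝ) := Real.isLittleO_pow_log_id_atTop
  have h4 : (0 : ℝ) < 1 / ((X₂ : ℝ) + 1) := by positivity
  have h5 := (h3.def h4)
  have h6 := tendsto_natCast_atTop_atTop (R := ℝ) |>.eventually h5
  have h7 := (h2.and h6).and (Filter.eventually_ge_atTop 1)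
  obtain ⟨X₀, hX₀⟩ := Filter.eventually_atTop.1 h7
  refine ⟨X₀, fun X hX => ?_⟩
  obtain ⟨⟨h8, h9⟩, h10⟩ := hX₀ X hX
  refine ⟨h8, ?_⟩
  have hX0 : (0 : ℝ) < X := by exact_mod_cast h10
  rw [Real.norm_of_nonneg (by positivity), id, Real.norm_of_nonneg hX0.le, div_mul_eq_mul_div, one_mul,
    le_div_iff₀ (by positivity)] at h9
  have h11 : 0 < Real.log X ^ c := by positivity
  nlinarith

theorem FIN (hMNS : MNS_stmt) (hTQ : TQ_stmt) : FIN_stmt := by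
  obtain ⟨C₁, X₁, hM⟩ := hMNS
  obtain ⟨X₂, hT⟩ := hTQ
  obtain ⟨X₃, hX₃⟩ := FIN_large X₂ (2 * C₁ + 5)
  refine ⟨2 * C₁ + 11, max X₁ (max X₂ X₃), ?_⟩
  intro X Z e f hX hZX he hf hef
  have hX1 : X₁ ≤ X := (le_max_left _ _).trans hX
  have hX2 : X₂ ≤ X := ((le_max_left _ _).trans (le_max_right _ _)).trans hX
  have hX3 : X₃ ≤ X := ((le_max_right _ _).trans (le_max_right _ _)).trans hX
  obtain ⟨hL, hbig⟩ := hX₃ X hX3
  set L : ℝ := Real.log X with hLd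
  have hL0 : 0 < L := by linarith
  have hL1 : 1 ≤ L := by linarith
  have hE0 : (0 : ℝ) ≤ sN e X := Nat.cast_nonneg _
  have hF0 : (0 : ℝ) ≤ sN f Z := Nat.cast_nonneg _
  have hXpos : (0 : ℝ) < X := lt_of_le_of_lt (by positivity) hbig
  rcases Nat.eq_zero_or_pos Z with rfl | hZ
  · rw [Nat.cast_zero, Real.sqrt_zero, mul_zero]
    positivity
  have hZ0 : (0 : ℝ) < Z := by exact_mod_cast hZ
  have hTX := hT X e hX2 he
  rw [← hLd] at hTX
  obtain ⟨t, ht0, ht4, ht3, ht2⟩ := FIN_root X hXpos.le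
  obtain ⟨v, hv0, hv4, hv3, hv2⟩ := FIN_root Z hZ0.le
  rw [ht3] at hTX
  by_cases h1 : (X : ℝ) * L ^ (2 * (C₁ + 5)) < (Z : ℝ) ^ 2
  swap
  · -- (a)
    push Not at h1
    have h2 : v ^ 2 ≤ t * L ^ (C₁ + 5) := by
      have h3 : (v ^ 2) ^ 4 ≤ (t * L ^ (C₁ + 5)) ^ 4 := by
        calc (v ^ 2) ^ 4 = (v ^ 4) ^ 2 := by ring
          _ = (Z : ℝ) ^ 2 := by rw [hv4]
          _ ≤ X * L ^ (2 * (C₁ + 5)) := h1
          _ = t ^ 4 * L ^ (2 * (C₁ + 5)) := by rw [ht4]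
          _ ≤ t ^ 4 * L ^ (4 * (C₁ + 5)) :=
              mul_le_mul_of_nonneg_left (pow_le_pow_right₀ hL1 (by omega)) (by positivity)
          _ = _ := by ring
      exact (pow_le_pow_iff_left₀ (by positivity) (by positivity) (by norm_num)).1 h3
    calc (X : ℝ) * √Z = t ^ 4 * v ^ 2 := by rw [ht4, hv2]
      _ ≤ t ^ 4 * (t * L ^ (C₁ + 5)) := mul_le_mul_of_nonneg_left h2 (by positivity)
      _ = t ^ 3 * (t ^ 2 * L ^ (C₁ + 5)) := by ring
      _ ≤ (L ^ 3 * sN e X) * (t ^ 2 * L ^ (C₁ + 5)) := mul_le_mul_of_nonneg_right hTX (by positivity)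
      _ = L ^ (C₁ + 8) * (sN e X * √X) := by rw [ht2]; ring
      _ ≤ L ^ (2 * C₁ + 11) * (sN e X * √X) :=
          mul_le_mul_of_nonneg_right (pow_le_pow_right₀ hL1 (by omega)) (by positivity)
      _ ≤ _ := by
          refine mul_le_mul_of_nonneg_left ?_ (by positivity)
          exact mul_le_mul_of_nonneg_left (le_max_right _ _) hE0
  by_cases h4 : (Z : ℝ) * L ^ (2 * C₁ + 5) < X
  swap
  · -- (b)
    push Not at h4
    have hZ2 : X₂ ≤ Z := by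
      by_contra hcon
      push Not at hcon
      have h5 : (Z : ℝ) ≤ X₂ := by exact_mod_cast hcon.le
      have h6 : (Z : ℝ) * L ^ (2 * C₁ + 5) ≤ X₂ * L ^ (2 * C₁ + 5) :=
        mul_le_mul_of_nonneg_right h5 (by positivity)
      linarith
    have hTZ := hT Z f hZ2 hf
    rw [hv3] at hTZ
    have hlog : Real.log Z ≤ L := Real.log_le_log hZ0 (by exact_mod_cast hZX)
    have hlog0 : 0 ≤ Real.log Z := Real.log_nonneg (by exact_mod_cast hZ)
    have hTZ' : v ^ 3 ≤ L ^ 3 * sN f Z := by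
      refine hTZ.trans ?_
      exact mul_le_mul_of_nonneg_right (pow_le_pow_left₀ hlog0 hlog 3) hF0
    have h2 : t ≤ v * L ^ (2 * C₁ + 5) := by
      have h3 : t ^ 4 ≤ (v * L ^ (2 * C₁ + 5)) ^ 4 := by
        calc t ^ 4 = X := ht4
          _ ≤ Z * L ^ (2 * C₁ + 5) := h4
          _ = v ^ 4 * L ^ (2 * C₁ + 5) := by rw [hv4]
          _ ≤ v ^ 4 * L ^ (4 * (2 * C₁ + 5)) :=
              mul_le_mul_of_nonneg_left (pow_le_pow_right₀ hL1 (by omega)) (by positivity)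
          _ = _ := by ring
      exact (pow_le_pow_iff_left₀ ht0 (by positivity) (by norm_num)).1 h3
    calc (X : ℝ) * √Z = t ^ 3 * (t * v ^ 2) := by rw [← ht4, hv2]; ring
      _ ≤ t ^ 3 * (v * L ^ (2 * C₁ + 5) * v ^ 2) := by
          refine mul_le_mul_of_nonneg_left ?_ (by positivity)
          exact mul_le_mul_of_nonneg_right h2 (by positivity)
      _ = t ^ 3 * v ^ 3 * L ^ (2 * C₁ + 5) := by ring
      _ ≤ (L ^ 3 * sN e X) * (L ^ 3 * sN f Z) * L ^ (2 * C₁ + 5) := by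
          refine mul_le_mul_of_nonneg_right ?_ (by positivity)
          exact mul_le_mul hTX hTZ' (by positivity) (by positivity)
      _ = L ^ (2 * C₁ + 11) * (sN e X * sN f Z) := by ring
      _ ≤ _ := by
          refine mul_le_mul_of_nonneg_left ?_ (by positivity)
          exact mul_le_mul_of_nonneg_left (le_max_left _ _) hE0
  by_cases h2 : (sN f Z : ℝ) ^ 4 * L ^ (4 * (2 * C₁ + 4)) < X * (Z : ℝ) ^ 2
  swap
  · -- (c)
    push Not at h2
    have h3 : t * v ^ 2 ≤ sN f Z * L ^ (2 * C₁ + 4) := by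
      have h5 : (t * v ^ 2) ^ 4 ≤ (sN f Z * L ^ (2 * C₁ + 4)) ^ 4 := by
        calc (t * v ^ 2) ^ 4 = t ^ 4 * (v ^ 4) ^ 2 := by ring
          _ = X * (Z : ℝ) ^ 2 := by rw [ht4, hv4]
          _ ≤ (sN f Z : ℝ) ^ 4 * L ^ (4 * (2 * C₁ + 4)) := h2
          _ = _ := by ring
      exact (pow_le_pow_iff_left₀ (by positivity) (by positivity) (by norm_num)).1 h5
    calc (X : ℝ) * √Z = t ^ 3 * (t * v ^ 2) := by rw [← ht4, hv2]; ring
      _ ≤ (L ^ 3 * sN e X) * (sN f Z * L ^ (2 * C₁ + 4)) :=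
          mul_le_mul hTX h3 (by positivity) (by positivity)
      _ = L ^ (2 * C₁ + 7) * (sN e X * sN f Z) := by ring
      _ ≤ L ^ (2 * C₁ + 11) * (sN e X * sN f Z) :=
          mul_le_mul_of_nonneg_right (pow_le_pow_right₀ hL1 (by omega)) (by positivity)
      _ ≤ _ := by
          refine mul_le_mul_of_nonneg_left ?_ (by positivity)
          exact mul_le_mul_of_nonneg_left (le_max_left _ _) hE0
  exact FIN_core C₁ L hL X Z (sN f Z) (sN e X) hZ
    (fun b h K N a1 a2 a3 a4 a5 a6 a7 => hM X Z b h K N e f hX1 he hf hef a1 a2 a3 a4 a5 a6 a7)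
    h1 h4 h2

end Pool.Agent.TSC
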